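import Pool.Agent.H9.Special.Defs

namespace Pool.Agent.H9.Special

open MvPolynomial

universe u

variable {k : Type u} [Field k] {r : ℕ}

/-- restriction of the multiplicity condition to a parametrised curve -/
theorem dvd_of_mem (v : Fin 3 → k) (P : Fin 3 → Polynomial k) (t : k)
    (hP : ∀ i, (P i).eval t = v i) {F : MvPolynomial (Fin 3) k} {n : ℕ}
    (hF : F ∈ pointIdeal v ^ n) : (Polynomial.X - Polynomial.C t) ^ n ∣ aeval P F := by
  set φ : MvPolynomial (Fin 3) k →+* Polynomial k := (aeval P : _ →ₐ[k] _).toRingHom with hφ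
  have h1 : pointIdeal v ≤ Ideal.comap φ (Ideal.span {Polynomial.X - Polynomial.C t}) := by
    refine Ideal.span_le.2 ?_
    rintro G ⟨-, hG⟩
    change φ G ∈ (Ideal.span {Polynomial.X - Polynomial.C t} : Ideal (Polynomial k))
    rw [Ideal.mem_span_singleton, Polynomial.dvd_iff_isRoot, Polynomial.IsRoot.def]
    have : Polynomial.eval t (aeval P G) = eval v G := by
      rw [← Polynomial.coe_evalRingHom, MvPolynomial.aeval_def, MvPolynomial.hom_eval₂]
      rw [MvPolynomial.eval, MvPolynomial.coe_eval₂Hom]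
      congr 1
      · ext a; simp
      · funext i; exact hP i
    exact this.trans hG
  have h2 : pointIdeal v ^ n ≤ Ideal.comap φ (Ideal.span {Polynomial.X - Polynomial.C t} ^ n) :=
    (Ideal.pow_right_mono h1 n).trans (Ideal.le_comap_pow _ n)
  have h3 : φ F ∈ Ideal.span {Polynomial.X - Polynomial.C t} ^ n := h2 hF
  rwa [Ideal.span_singleton_pow, Ideal.mem_span_singleton] at h3

theorem eval_of_mem (v : Fin 3 → k) {F : MvPolynomial (Fin 3) k}
    (hF : F ∈ pointIdeal v) : eval v F = 0 := by
  have h1 : pointIdeal v ≤ RingHom.ker (eval v) := by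
    refine Ideal.span_le.2 ?_
    rintro G ⟨-, hG⟩
    exact hG
  exact h1 hF

theorem eval_of_mem_pow (v : Fin 3 → k) {F : MvPolynomial (Fin 3) k} {n : ℕ} (hn : n ≠ 0)
    (hF : F ∈ pointIdeal v ^ n) : eval v F = 0 :=
  eval_of_mem v (Ideal.pow_le_self hn hF)

theorem eval_scale {F : MvPolynomial (Fin 3) k} {d : ℕ} (hF : F.IsHomogeneous d)
    (s : k) (v : Fin 3 → k) : eval (fun i => s * v i) F = s ^ d * eval v F := by
  rw [MvPolynomial.eval_eq', MvPolynomial.eval_eq', Finset.mul_sum]
  refine Finset.sum_congr rfl fun e he => ?_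
  have h1 : e.degree = d := by
    by_contra hne
    exact (MvPolynomial.mem_support_iff.1 he) (hF.coeff_eq_zero hne)
  have h2 : ∑ i, e i = d := by rw [← h1, Finsupp.degree_eq_sum]
  simp only [mul_pow, Finset.prod_mul_distrib]
  rw [Finset.prod_pow_eq_pow_sum, h2]
  ring

/-- a homogeneous polynomial vanishing at all points `(x, y, 1)` is zero -/
theorem eq_zero_of_affine [Infinite k] {F : MvPolynomial (Fin 3) k} {d : ℕ}
    (hF : F.IsHomogeneous d) (h : ∀ x y : k, eval ![x, y, 1] F = 0) : F = 0 := by
  have h1 : X 2 * F = 0 := by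
    refine MvPolynomial.funext fun v => ?_
    rw [map_mul, map_zero, eval_X]
    by_cases hv : v 2 = 0
    · rw [hv, zero_mul]
    · have : v = fun i => v 2 * (![v 0 / v 2, v 1 / v 2, 1] : Fin 3 → k) i := by
        funext i
        fin_cases i
        · simp; field_simp
        · simp; field_simp
        · simp
      rw [this, eval_scale hF, h, mul_zero, mul_zero]
  rcases mul_eq_zero.1 h1 with h2 | h2
  · exact absurd h2 (X_ne_zero 2)
  · exact h2

/-- substitution modulo a principal ideal -/
theorem dvd_of_subst {σ : Type*} (ℓ : MvPolynomial σ k) (g : σ → MvPolynomial σ k)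
    (hg : ∀ i, ℓ ∣ X i - g i) {F : MvPolynomial σ k} (hF : aeval g F = 0) : ℓ ∣ F := by
  let q := Ideal.Quotient.mkₐ k (Ideal.span {ℓ})
  have h1 : q.comp (aeval g) = q.comp (AlgHom.id k _) := by
    refine MvPolynomial.algHom_ext fun i => ?_
    simp only [AlgHom.comp_apply, aeval_X, AlgHom.id_apply]
    refine (Ideal.Quotient.eq.2 ?_).symm
    exact Ideal.mem_span_singleton.2 (hg i)
  have h2 : q F = 0 := by
    have := DFunLike.congr_fun h1 F
    simp only [AlgHom.comp_apply, AlgHom.id_apply] at this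
    rw [← this, hF, map_zero]
  exact Ideal.mem_span_singleton.1 (Ideal.Quotient.eq_zero_iff_mem.1 h2)

theorem aeval_eval {σ τ : Type*} (g : σ → MvPolynomial τ k) (v : τ → k) (F : MvPolynomial σ k) :
    eval v (aeval g F) = eval (fun i => eval v (g i)) F := by
  rw [MvPolynomial.aeval_def, MvPolynomial.hom_eval₂]
  rw [MvPolynomial.eval, MvPolynomial.coe_eval₂Hom]
  congr 1
  ext a; simp

theorem aeval_eval' {σ : Type*} (g : σ → Polynomial k) (t : k) (F : MvPolynomial σ k) :
    (aeval g F).eval t = eval (fun i => (g i).eval t) F := by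
  rw [← Polynomial.coe_evalRingHom, MvPolynomial.aeval_def, MvPolynomial.hom_eval₂]
  rw [MvPolynomial.eval, MvPolynomial.coe_eval₂Hom]
  congr 1
  ext a; simp

/-- divisibility by the form of a vertical line -/
theorem line_dvd [Infinite k] {F : MvPolynomial (Fin 3) k} {d : ℕ} (hF : F.IsHomogeneous d)
    (a : k) (h : ∀ t : k, eval ![a, t, 1] F = 0) : (X 0 - C a * X 2) ∣ F := by
  refine dvd_of_subst _ ![C a * X 2, X 1, X 2] ?_ ?_
  · intro i
    fin_cases i <;> simp
  · refine eq_zero_of_affine (d := d) ?_ ?_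
    · have := hF.aeval (![C a * X 2, X 1, X 2] : Fin 3 → MvPolynomial (Fin 3) k) (n := 1) ?_
      · simpa using this
      · intro i
        fin_cases i
        · exact isHomogeneous_C_mul_X a 2
        · exact isHomogeneous_X k 1
        · exact isHomogeneous_X k 2
    · intro x y
      rw [aeval_eval]
      convert h y using 2
      congr 1
      funext i
      fin_cases i <;> simp

/-- divisibility in the affine plane -/
theorem line_dvd2 [Infinite k] {F : MvPolynomial (Fin 2) k}
    (b : k) (h : ∀ t : k, eval ![t, b] F = 0) : (X 1 - C b) ∣ F := by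
  refine dvd_of_subst _ ![X 0, C b] ?_ ?_
  · intro i
    fin_cases i <;> simp
  · refine MvPolynomial.funext fun v => ?_
    rw [aeval_eval, map_zero]
    convert h (v 0) using 2
    congr 1
    funext i
    fin_cases i <;> simp

theorem totalDegree_line (b : k) : 1 ≤ (X 1 - C b : MvPolynomial (Fin 2) k).totalDegree := by
  have h : (Finsupp.single 1 1 : Fin 2 →₀ ℕ) ∈ (X 1 - C b : MvPolynomial (Fin 2) k).support := by
    have hne : (0 : Fin 2 →₀ ℕ) ≠ Finsupp.single 1 1 := by
      intro h
      have := DFunLike.congr_fun h 1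
      simp at this
    rw [mem_support_iff, coeff_sub, coeff_C, if_neg hne, sub_zero]
    simp
  have := le_totalDegree h
  simpa using this

theorem step [Infinite k] {g : MvPolynomial (Fin 2) k} (hg0 : g ≠ 0) {d : ℕ}
    (hg : g.totalDegree ≤ d) (b : k) (T : Finset k) (hT : d < T.card)
    (h : ∀ t ∈ T, eval ![t, b] g = 0) :
    ∃ g' : MvPolynomial (Fin 2) k, g = (X 1 - C b) * g' ∧ g' ≠ 0 ∧ g'.totalDegree + 1 ≤ d := by
  let P : Fin 2 → Polynomial k := ![Polynomial.X, Polynomial.C b]
  have h1 : (aeval P g).natDegree ≤ d * 1 := aeval_natDegree_le g hg P (by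
    intro i; fin_cases i <;> simp [P])
  have hev : ∀ t, (aeval P g).eval t = eval ![t, b] g := by
    intro t
    rw [aeval_eval']
    congr 2
    funext i
    fin_cases i <;> simp [P]
  have h2 : aeval P g = 0 :=
    Polynomial.eq_zero_of_natDegree_lt_card_of_eval_eq_zero' _ T
      (fun t ht => by rw [hev, h t ht]) (by omega)
  have h3 : (X 1 - C b) ∣ g := line_dvd2 b (fun t => by rw [← hev, h2, Polynomial.eval_zero])
  obtain ⟨g', rfl⟩ := h3
  have hg' : g' ≠ 0 := right_ne_zero_of_mul hg0
  refine ⟨g', rfl, hg', ?_⟩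
  rw [totalDegree_mul_of_isDomain (left_ne_zero_of_mul hg0) hg'] at hg
  have := totalDegree_line b
  omega

end Pool.Agent.H9.Special
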