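import Pool.Agent.H9.Special.Nef

namespace Pool.Agent.H9.Special

open MvPolynomial

universe u

variable {k : Type u} [Field k]

theorem simple_root (e : ℕ → k) (he : Function.Injective e) (c : k) (hc : c ≠ 0) (a : k) (n : ℕ)
    (h : (Polynomial.X - Polynomial.C a) ^ n ∣
      Polynomial.C c * ∏ j : Fin 5, (Polynomial.X - Polynomial.C (e j))) : n ≤ 1 := by
  by_contra hn
  have hu : IsUnit (Polynomial.C c) := Polynomial.isUnit_C.2 hc.isUnit
  rw [hu.dvd_mul_left] at h
  have h2 : (Polynomial.X - Polynomial.C a) * (Polynomial.X - Polynomial.C a) ∣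
      ∏ j : Fin 5, (Polynomial.X - Polynomial.C (e j)) := by
    rw [← sq]
    exact (pow_dvd_pow _ (by omega)).trans h
  have hinj : Function.Injective (fun j : Fin 5 => e j) := fun i j hij => Fin.ext (he hij)
  have hsq : Squarefree (∏ j : Fin 5, (Polynomial.X - Polynomial.C (e j))) :=
    (Polynomial.separable_prod_X_sub_C_iff.2 hinj).squarefree
  exact Polynomial.not_isUnit_X_sub_C a (hsq _ h2)

theorem resH_Dbar (e : ℕ → k) (b c : k) : resH b (C c * Dbar e) =
    Polynomial.C c * ∏ j : Fin 5, (Polynomial.X - Polynomial.C (e j)) := by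
  rw [resH, map_mul, Dbar, map_prod]
  simp [lv]

theorem resV_Dbar (e : ℕ → k) (j : Fin 5) (c : k) : resV (e j) (C c * Dbar e) = 0 := by
  have h : resV (e j) (Dbar e) = 0 := by
    rw [resV, Dbar, map_prod]
    refine Finset.prod_eq_zero (Finset.mem_univ j) ?_
    simp [lv]
  have h2 : resV (e j) (C c * Dbar e) = resV (e j) (C c) * resV (e j) (Dbar e) := map_mul _ _ _
  rw [h2, h, mul_zero]

theorem card_le_of_roots (e : ℕ → k) (he : Function.Injective e) (J : Finset (Fin 5))
    (g : Polynomial k) (hg : g ≠ 0) (h : ∀ j ∈ J, g.eval (e j) = 0) : J.card ≤ g.natDegree := by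
  classical
  by_contra hlt
  refine hg (Polynomial.eq_zero_of_natDegree_lt_card_of_eval_eq_zero' g
    (J.image (fun j : Fin 5 => e (j : ℕ))) ?_ ?_)
  · intro t ht
    obtain ⟨j, hj, rfl⟩ := Finset.mem_image.1 ht
    exact h j hj
  · rw [Finset.card_image_of_injective _ (fun i j hij => Fin.ext (he hij))]
    omega

theorem decJ : ∀ J : Finset (Fin 5),
    5 * (J.card : ℤ) - ∑ i : Fin 21, (if xx i ∈ J then (1 : ℤ) else 0) = 0 → J = ∅ ∨ J = {0} := by
  decide +kernel

theorem pa_zero : pa ((1, fun i => if xx i ∈ ({0} : Finset (Fin 5)) then 1 else 0) : Cls 21)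
    = 0 := by
  decide +kernel

theorem notB [Infinite k] (e : ℕ → k) (he : Function.Injective e) : ¬ CondB (pts e) LL := by
  classical
  rintro ⟨⟨c, m⟩, hC0, ⟨G, hG, hG0⟩, ⟨A, hA, hA0⟩, hpa, hdot⟩
  have hc0 : 0 ≤ c := by
    by_contra h
    rw [H0, if_neg h, Submodule.mem_bot] at hG
    exact hG0 hG
  have hc5 : 0 ≤ 5 - c := by
    by_contra h
    have h' : ¬ 0 ≤ (LL - (c, m) : Cls 21).1 := h
    rw [H0, if_neg h', Submodule.mem_bot] at hA
    exact hA0 hA
  rw [mem_H0 _ _ hc0] at hG
  rw [mem_H0 _ _ hc5] at hA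
  obtain ⟨hGh, hGm⟩ := hG
  obtain ⟨hAh, hAm⟩ := hA
  have hAh' : A.IsHomogeneous (5 - c).toNat := hAh
  have hAm' : ∀ i, A ∈ pointIdeal (pts e i) ^ (1 - m i).toNat := hAm
  have hGh' : G.IsHomogeneous c.toNat := hGh
  have hGm' : ∀ i, G ∈ pointIdeal (pts e i) ^ (m i).toNat := hGm
  have hGA : G * A ∈ H0 (pts e) LL := by
    rw [mem_H0_LL]
    constructor
    · have := hGh'.mul hAh'
      have h5 : c.toNat + (5 - c).toNat = 5 := by omega
      rwa [h5] at this
    · intro i
      have h1 := Ideal.mul_mem_mul (hGm' i) (hAm' i)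
      rw [← pow_add] at h1
      exact Ideal.pow_le_self (by omega) h1
  obtain ⟨l, hl⟩ := uniq e he hGA
  have hl0 : l ≠ 0 := by
    rintro rfl
    rw [map_zero, zero_mul] at hl
    rcases mul_eq_zero.1 hl with h | h
    · exact hG0 h
    · exact hA0 h
  have hresH : ∀ b, resH b G * resH b A =
      Polynomial.C l * ∏ j : Fin 5, (Polynomial.X - Polynomial.C (e j)) := by
    intro b
    rw [← resH_Dbar, ← hl]
    exact (map_mul _ _ _).symm
  have hresV : ∀ j : Fin 5, resV (e j) G = 0 ∨ resV (e j) A = 0 := by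
    intro j
    rw [← mul_eq_zero, ← resV_Dbar e j l, ← hl]
    exact (map_mul _ _ _).symm
  have hmi : ∀ i, m i = 0 ∨ m i = 1 := by
    intro i
    have h1 := mul_dvd_mul (resH_dvd (e (xx i)) (e (yy i)) (hGm' i))
      (resH_dvd (e (xx i)) (e (yy i)) (hAm' i))
    rw [← pow_add, hresH] at h1
    have := simple_root e he l hl0 _ _ h1
    omega
  have hnot : ∀ i, eval (pts e i) G = 0 → eval (pts e i) A = 0 → False := by
    intro i h1 h2
    have h3 : (Polynomial.X - Polynomial.C (e (xx i))) ∣ resH (e (yy i)) G := by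
      rw [Polynomial.dvd_iff_isRoot, Polynomial.IsRoot.def, resH_eval]
      exact h1
    have h4 : (Polynomial.X - Polynomial.C (e (xx i))) ∣ resH (e (yy i)) A := by
      rw [Polynomial.dvd_iff_isRoot, Polynomial.IsRoot.def, resH_eval]
      exact h2
    have h5 := mul_dvd_mul h3 h4
    rw [hresH, ← sq] at h5
    have := simple_root e he l hl0 _ _ h5
    omega
  set J : Finset (Fin 5) := Finset.univ.filter (fun j => resV (e j) G = 0) with hJ
  have hmJ : ∀ i, m i = if xx i ∈ J then 1 else 0 := by
    intro i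
    by_cases hi : xx i ∈ J
    · rw [if_pos hi]
      rw [hJ, Finset.mem_filter] at hi
      refine (hmi i).resolve_left fun h0 => ?_
      have h1 : eval (pts e i) G = 0 := by
        have := resV_eval (e (xx i)) (e (yy i)) G
        rw [hi.2, Polynomial.eval_zero] at this
        exact this.symm
      have h2 : eval (pts e i) A = 0 :=
        eval_of_mem_pow _ (by rw [h0]; decide) (hAm' i)
      exact hnot i h1 h2
    · rw [if_neg hi]
      refine (hmi i).resolve_right fun h0 => ?_
      have hi' : resV (e (xx i)) A = 0 := by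
        refine (hresV (xx i)).resolve_left fun h => hi ?_
        rw [hJ, Finset.mem_filter]
        exact ⟨Finset.mem_univ _, h⟩
      have h1 : eval (pts e i) A = 0 := by
        have := resV_eval (e (xx i)) (e (yy i)) A
        rw [hi', Polynomial.eval_zero] at this
        exact this.symm
      have h2 : eval (pts e i) G = 0 :=
        eval_of_mem_pow _ (by rw [h0]; decide) (hGm' i)
      exact hnot i h2 h1
  have hcard : (J.card : ℤ) = c := by
    have hprod := hresH (e 0)
    have hne : resH (e 0) G * resH (e 0) A ≠ 0 := by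
      rw [hprod]
      exact mul_ne_zero (Polynomial.C_ne_zero.2 hl0)
        (Finset.prod_ne_zero_iff.2 fun j _ => Polynomial.X_sub_C_ne_zero _)
    have hg0 := left_ne_zero_of_mul hne
    have ha0 := right_ne_zero_of_mul hne
    have h1 : J.card ≤ (resH (e 0) G).natDegree := by
      refine card_le_of_roots e he J _ hg0 fun j hj => ?_
      rw [hJ, Finset.mem_filter] at hj
      rw [resH_eval, ← resV_eval, hj.2, Polynomial.eval_zero]
    have h2 : Jᶜ.card ≤ (resH (e 0) A).natDegree := by
      refine card_le_of_roots e he _ _ ha0 fun j hj => ?_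
      rw [Finset.mem_compl, hJ, Finset.mem_filter, not_and] at hj
      have := (hresV j).resolve_left (hj (Finset.mem_univ _))
      rw [resH_eval, ← resV_eval, this, Polynomial.eval_zero]
    have h3 := h1.trans (resH_deg _ hGh')
    have h4 := h2.trans (resH_deg _ hAh')
    rw [Finset.card_compl, Fintype.card_fin] at h4
    have h5 : J.card ≤ 5 := by simpa using J.card_le_univ
    omega
  have hm : m = fun i => if xx i ∈ J then 1 else 0 := funext hmJ
  have hd : 5 * (J.card : ℤ) - ∑ i : Fin 21, (if xx i ∈ J then (1 : ℤ) else 0) = 0 := by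
    have h1 := hdot
    rw [hm] at h1
    simp only [dot, LL, one_mul] at h1
    rw [hcard]
    exact h1
  rcases decJ J hd with hJ0 | hJ0
  · apply hC0
    rw [hm, ← hcard, hJ0]
    ext
    · simp
    · simp
  · rw [hm, ← hcard, hJ0] at hpa
    have := pa_zero
    simp only [Finset.card_singleton, Nat.cast_one] at hpa
    omega

end Pool.Agent.H9.Special
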