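import Pool.Agent.H9.Special.CondB

namespace Pool.Agent.H9.Special

open MvPolynomial

universe u

variable {k : Type u} [Field k]

/-- pairs `(a, b)` with `a + b < n`, stored as `(a + b, a)` -/
abbrev JJ (n : ℕ) : Type := Σ s : Fin n, Fin ((s : ℕ) + 1)

theorem two_card (n : ℕ) : 2 * Fintype.card (JJ n) = n * (n + 1) := by
  rw [Fintype.card_sigma]
  simp only [Fintype.card_fin]
  rw [Fin.sum_univ_eq_sum_range (fun s => s + 1) n]
  induction n with
  | zero => simp
  | succ n ih => rw [Finset.sum_range_succ, mul_add, ih]; ring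

/-- the exponent of `X₀ᵃX₁ᵇX₂^(d-a-b)` -/
noncomputable def ex (d : ℕ) {n : ℕ} (q : JJ n) : Fin 3 →₀ ℕ :=
  Finsupp.equivFunOnFinite.symm ![(q.2 : ℕ), (q.1 : ℕ) - q.2, d - q.1]

theorem ex_inj (d n : ℕ) : Function.Injective (ex d : JJ n → Fin 3 →₀ ℕ) := by
  rintro ⟨s, a⟩ ⟨s', a'⟩ h
  have h0 := DFunLike.congr_fun h 0
  have h1 := DFunLike.congr_fun h 1
  simp [ex] at h0 h1
  have ha := a.2
  have ha' := a'.2
  have hs : (s : ℕ) = s' := by omega
  obtain rfl := Fin.ext hs
  obtain rfl : a = a' := Fin.ext h0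
  rfl

theorem ex_degree (d : ℕ) {n : ℕ} (q : JJ n) (hq : n ≤ d + 1) : (ex d q).degree = d := by
  rw [Finsupp.degree_eq_sum, Fin.sum_univ_three]
  simp [ex]
  have h1 := q.2.2
  have h2 := q.1.2
  omega

noncomputable def Phi (d n : ℕ) : (JJ n → k) →ₗ[k] MvPolynomial (Fin 3) k :=
  Fintype.linearCombination k (fun q => monomial (ex d q) (1 : k))

theorem coeff_Phi (d n : ℕ) (c : JJ n → k) (q : JJ n) : coeff (ex d q) (Phi d n c) = c q := by
  classical
  rw [Phi, Fintype.linearCombination_apply, coeff_sum, Finset.sum_eq_single q]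
  · simp
  · intro q' _ hne
    rw [coeff_smul, coeff_monomial, if_neg (fun h => hne (ex_inj d n h)), smul_zero]
  · intro h
    exact absurd (Finset.mem_univ q) h

theorem Phi_inj (d n : ℕ) : Function.Injective (Phi (k := k) d n) := by
  intro c c' h
  funext q
  rw [← coeff_Phi d n c q, h, coeff_Phi]

theorem Phi_hom (d n : ℕ) (hn : n ≤ d + 1) (c : JJ n → k) : (Phi d n c).IsHomogeneous d := by
  rw [Phi, Fintype.linearCombination_apply]
  refine MvPolynomial.IsHomogeneous.sum _ _ _ fun q _ => ?_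
  rw [smul_monomial]
  exact isHomogeneous_monomial _ (ex_degree d q hn)

/-- translation of coordinates -/
noncomputable def tr (x y : k) : MvPolynomial (Fin 3) k →ₐ[k] MvPolynomial (Fin 3) k :=
  aeval ![X 0 + C x * X 2, X 1 + C y * X 2, X 2]

theorem tr_tr (x y : k) (F : MvPolynomial (Fin 3) k) : tr (-x) (-y) (tr x y F) = F := by
  have : (tr (-x) (-y)).comp (tr x y) = AlgHom.id k _ := by
    refine MvPolynomial.algHom_ext fun i => ?_
    fin_cases i <;> simp [tr, algebraMap_eq]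
  exact DFunLike.congr_fun this F

theorem tr_hom (x y : k) {F : MvPolynomial (Fin 3) k} {d : ℕ} (hF : F.IsHomogeneous d) :
    (tr x y F).IsHomogeneous d := by
  have := hF.aeval (![X 0 + C x * X 2, X 1 + C y * X 2, X 2] : Fin 3 → MvPolynomial (Fin 3) k)
    (n := 1) ?_
  · simpa [tr] using this
  · intro i
    fin_cases i
    · exact (isHomogeneous_X k 0).add (isHomogeneous_C_mul_X x 2)
    · exact (isHomogeneous_X k 1).add (isHomogeneous_C_mul_X y 2)
    · exact isHomogeneous_X k 2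

theorem mem_pow_of_coeff (x y : k) {F : MvPolynomial (Fin 3) k} {d : ℕ} (hF : F.IsHomogeneous d)
    (n : ℕ) (h : ∀ q : JJ n, coeff (ex d q) (tr x y F) = 0) :
    F ∈ pointIdeal ![x, y, 1] ^ n := by
  rw [← tr_tr x y F]
  rw [(tr x y F).as_sum, map_sum]
  refine Ideal.sum_mem _ fun s hs => ?_
  have hsd : s.degree = d := by
    by_contra hne
    exact (MvPolynomial.mem_support_iff.1 hs) ((tr_hom x y hF).coeff_eq_zero hne)
  rw [Finsupp.degree_eq_sum, Fin.sum_univ_three] at hsd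
  have hn : n ≤ s 0 + s 1 := by
    by_contra hlt
    push Not at hlt
    refine (MvPolynomial.mem_support_iff.1 hs) ?_
    let q : JJ n := ⟨⟨s 0 + s 1, hlt⟩, ⟨s 0, by simp⟩⟩
    have hq : ex d q = s := by
      ext i
      fin_cases i
      · simp [ex, q]
      · simp [ex, q]
      · simp [ex, q]; omega
    rw [← hq]
    exact h q
  rw [tr, aeval_monomial, Finsupp.prod_fintype _ _ (by simp), Fin.prod_univ_three]
  have h0 : (X 0 + C (-x) * X 2 : MvPolynomial (Fin 3) k) ∈ pointIdeal ![x, y, 1] :=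
    Ideal.subset_span ⟨(isHomogeneous_X k 0).add (isHomogeneous_C_mul_X (-x) 2), by simp⟩
  have h1 : (X 1 + C (-y) * X 2 : MvPolynomial (Fin 3) k) ∈ pointIdeal ![x, y, 1] :=
    Ideal.subset_span ⟨(isHomogeneous_X k 1).add (isHomogeneous_C_mul_X (-y) 2), by simp⟩
  have h2 := Ideal.mul_mem_mul (Ideal.pow_mem_pow h0 (s 0)) (Ideal.pow_mem_pow h1 (s 1))
  rw [← pow_add] at h2
  refine Ideal.mul_mem_left _ _ (Ideal.mul_mem_right _ _ ?_)
  exact Ideal.pow_le_pow_right hn h2

/-- required multiplicities -/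
def mu (n : ℕ) (i : Fin 21) : ℕ := if (yy i : ℕ) < 3 then n else n + 1

noncomputable def Psi (e : ℕ → k) (n : ℕ) :
    (JJ (5 * n + 3) → k) →ₗ[k] ((Σ i : Fin 21, JJ (mu n i)) → k) :=
  LinearMap.pi fun w => (lcoeff k (ex (5 * n + 2) w.2)) ∘ₗ
    ((tr (e (xx w.1)) (e (yy w.1))).toLinearMap ∘ₗ Phi (5 * n + 2) (5 * n + 3))

theorem Psi_ker (e : ℕ → k) (n : ℕ) (c : JJ (5 * n + 3) → k) (hc : Psi e n c = 0) (i : Fin 21) :
    Phi (5 * n + 2) (5 * n + 3) c ∈ pointIdeal (pts e i) ^ mu n i := by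
  refine mem_pow_of_coeff _ _ (Phi_hom _ _ (by omega) c) _ fun q => ?_
  exact congrFun hc ⟨i, q⟩

theorem card_cond (n : ℕ) : 2 * Fintype.card (Σ i : Fin 21, JJ (mu n i)) =
    15 * (n * (n + 1)) + 6 * ((n + 1) * (n + 2)) := by
  rw [Fintype.card_sigma, Finset.mul_sum]
  simp only [two_card]
  have : ∀ i : Fin 21, mu n i * (mu n i + 1) =
      if (yy i : ℕ) < 3 then n * (n + 1) else (n + 1) * (n + 2) := by
    intro i
    rw [mu]
    split_ifs <;> ring
  rw [Finset.sum_congr rfl fun i _ => this i, Finset.sum_ite, Finset.sum_const, Finset.sum_const]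
  have h1 : (Finset.univ.filter (fun i => (yy i : ℕ) < 3)).card = 15 := by decide
  have h2 : (Finset.univ.filter (fun i => ¬ (yy i : ℕ) < 3)).card = 6 := by decide
  rw [h1, h2]
  simp

theorem finrank_ker (e : ℕ → k) (n : ℕ) :
    2 * n ^ 2 + n ≤ Module.finrank k (LinearMap.ker (Psi e n)) := by
  have h1 := LinearMap.finrank_range_add_finrank_ker (Psi e n)
  have h2 : Module.finrank k (LinearMap.range (Psi e n)) ≤
      Module.finrank k ((Σ i : Fin 21, JJ (mu n i)) → k) := Submodule.finrank_le _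
  rw [Module.finrank_fintype_fun_eq_card] at h1 h2
  have h3 := card_cond n
  have h4 := two_card (5 * n + 3)
  nlinarith

end Pool.Agent.H9.Special
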