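import Mathlib

/-!
Divisor classes on the blow-up `X` of the projective plane at points `p₁, …, p_r`
(problem MP_fa7d23_ag).
-/

namespace Pool.Agent.H9.Special

open MvPolynomial

universe u

variable {k : Type u} [Field k] {r : ℕ}

/-- The class `dH - ∑ mᵢEᵢ` on the blow-up at `r` points, stored as the pair `(d, m)`. -/
abbrev Cls (r : ℕ) : Type := ℤ × (Fin r → ℤ)

/-- The vectors `p i` are homogeneous coordinates of `r` distinct points of the plane. -/
def DistinctPoints (p : Fin r → Fin 3 → k) : Prop :=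
  (∀ i, p i ≠ 0) ∧ ∀ i j, i ≠ j → ∀ c : k, p i ≠ c • p j

/-- The homogeneous ideal of the point `[v]`, generated by the linear forms vanishing at `v`.
A form `F` has multiplicity at least `n` at `[v]` exactly when `F ∈ pointIdeal v ^ n`. -/
noncomputable def pointIdeal (v : Fin 3 → k) : Ideal (MvPolynomial (Fin 3) k) :=
  Ideal.span {F | F.IsHomogeneous 1 ∧ eval v F = 0}

/-- `H⁰(X, 𝒪(dH - ∑ mᵢEᵢ))`: the forms of degree `d` whose multiplicity at `p i` is at least
`max (mᵢ, 0)` for every `i`; it is zero when `d < 0`. -/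
noncomputable def H0 (p : Fin r → Fin 3 → k) (D : Cls r) : Submodule k (MvPolynomial (Fin 3) k) :=
  if 0 ≤ D.1 then
    homogeneousSubmodule (Fin 3) k D.1.toNat ⊓
      ⨅ i, (pointIdeal (p i) ^ (D.2 i).toNat).restrictScalars k
  else ⊥

/-- `h⁰(D)`. -/
noncomputable def h0 (p : Fin r → Fin 3 → k) (D : Cls r) : ℕ := Module.finrank k (H0 p D)

/-- The intersection product: `H² = 1`, `Eᵢ² = -1`, all other products of these are `0`. -/
def dot (D D' : Cls r) : ℤ := D.1 * D'.1 - ∑ i, D.2 i * D'.2 i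

/-- The canonical class `K = -3H + ∑ Eᵢ`. -/
def K : Cls r := (-3, fun _ => -1)

/-- `χ(D) = (D² - K·D)/2 + 1`; the numerator is always even. -/
def chi (D : Cls r) : ℤ := (dot D D - dot D K) / 2 + 1

/-- `h¹(D) = h⁰(D) + h²(D) - χ(D)` where `h²(D) = h⁰(K - D)` (Riemann–Roch and Serre
duality on the blow-up). -/
noncomputable def h1 (p : Fin r → Fin 3 → k) (D : Cls r) : ℤ :=
  h0 p D + h0 p (K - D) - chi D

/-- The arithmetic genus `(C² + K·C)/2 + 1`; the numerator is always even. -/
def pa (C : Cls r) : ℤ := (dot C C + dot C K) / 2 + 1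

/-- `D` is linearly equivalent to an effective divisor. -/
def Effective (p : Fin r → Fin 3 → k) (D : Cls r) : Prop := ∃ F ∈ H0 p D, F ≠ 0

/-- `D` is nef: `D · Eᵢ ≥ 0`, and `D · C ≥ 0` for the proper transform `C` of every irreducible
plane curve `F = 0` of degree `f`; the latter is required with every choice of integers
`n i ≤ mult_{p i}(F)` (as `D · Eᵢ ≥ 0`, the choice `n i = mult_{p i}(F)` is the strongest). -/
def Nef (p : Fin r → Fin 3 → k) (D : Cls r) : Prop :=
  (∀ i, 0 ≤ D.2 i) ∧
    ∀ (f : ℕ) (F : MvPolynomial (Fin 3) k) (n : Fin r → ℕ), Irreducible F → F.IsHomogeneous f →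
      (∀ i, F ∈ pointIdeal (p i) ^ n i) → 0 ≤ dot D (f, fun i => (n i : ℤ))

/-- Condition (B) of the problem: there is a curve (a nonzero effective divisor) of class `C`
with `|D - C|` nonempty, `p_a(C) > 0` and `D · C = 0`. -/
def CondB (p : Fin r → Fin 3 → k) (D : Cls r) : Prop :=
  ∃ C : Cls r, C ≠ 0 ∧ Effective p C ∧ Effective p (D - C) ∧ 0 < pa C ∧ dot D C = 0

end Pool.Agent.H9.Special
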