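import Pool.Agent.H9.Special.Count

namespace Pool.Agent.H9.Special

open MvPolynomial

universe u

variable {k : Type u} [Field k]

instance homFin (d : ℕ) : FiniteDimensional k (homogeneousSubmodule (Fin 3) k d) :=
  Module.Finite.iff_fg.2 (homogeneousSubmodule_fg (Fin 3) k d)

theorem H0_fin {r : ℕ} (p : Fin r → Fin 3 → k) (D : Cls r) : FiniteDimensional k (H0 p D) := by
  by_cases h : 0 ≤ D.1
  · have h1 : H0 p D ≤ homogeneousSubmodule (Fin 3) k D.1.toNat := by
      rw [H0, if_pos h]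
      exact inf_le_left
    exact Submodule.finiteDimensional_of_le h1
  · have h1 : H0 p D ≤ homogeneousSubmodule (Fin 3) k 0 := by
      rw [H0, if_neg h]
      exact bot_le
    exact Submodule.finiteDimensional_of_le h1

noncomputable def Theta (e : ℕ → k) (n : ℕ) :
    (LinearMap.ker (Psi e n) × k) →ₗ[k] MvPolynomial (Fin 3) k :=
  (LinearMap.mulLeft k (Cbar e) ∘ₗ
    (Phi (5 * n + 2) (5 * n + 3) ∘ₗ (LinearMap.ker (Psi e n)).subtype)).coprod
    (LinearMap.toSpanSingleton k _ (Dbar e ^ (n + 1)))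

theorem Theta_apply (e : ℕ → k) (n : ℕ) (w : LinearMap.ker (Psi e n) × k) :
    Theta e n w = Cbar e * Phi (5 * n + 2) (5 * n + 3) w.1 + C w.2 * Dbar e ^ (n + 1) := by
  simp [Theta, smul_eq_C_mul]

theorem eval_Dbar_ne (e : ℕ → k) (he : Function.Injective e) :
    eval ![e 5, e 0, 1] (Dbar e) ≠ 0 := by
  rw [Dbar, map_prod]
  refine Finset.prod_ne_zero_iff.2 fun j _ h => ?_
  simp only [lv, map_sub, map_mul, eval_X, eval_C, Matrix.cons_val_zero, Matrix.cons_val,
    mul_one, sub_eq_zero] at h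
  have := he h
  omega

theorem eval_Cbar (e : ℕ → k) : eval ![e 5, e 0, 1] (Cbar e) = 0 := by
  rw [Cbar, map_prod]
  refine Finset.prod_eq_zero (Finset.mem_univ 0) ?_
  simp [lh]

theorem Cbar_ne_zero (e : ℕ → k) : Cbar e ≠ 0 := by
  refine Finset.prod_ne_zero_iff.2 fun j _ h => ?_
  have := congrArg (eval ![0, e j + 1, 1]) h
  simp [lh] at this

theorem Theta_inj (e : ℕ → k) (he : Function.Injective e) (n : ℕ) :
    Function.Injective (Theta e n) := by
  rw [injective_iff_map_eq_zero]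
  rintro ⟨⟨c, hc⟩, l⟩ h
  rw [Theta_apply] at h
  have hl : l = 0 := by
    have h1 := congrArg (eval ![e 5, e 0, 1]) h
    rw [map_add, map_mul, map_mul, map_pow, eval_Cbar, zero_mul, zero_add, eval_C, map_zero] at h1
    rcases mul_eq_zero.1 h1 with h2 | h2
    · exact h2
    · exact absurd (pow_eq_zero_iff (by omega) |>.1 h2) (eval_Dbar_ne e he)
  subst hl
  simp only [map_zero, zero_mul, add_zero] at h
  have h2 := (mul_eq_zero.1 h).resolve_left (Cbar_ne_zero e)
  have h3 : c = 0 := Phi_inj _ _ (by rw [h2, map_zero])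
  subst h3
  rfl

theorem Theta_mem (e : ℕ → k) (n : ℕ) (w : LinearMap.ker (Psi e n) × k) :
    Theta e n w ∈ H0 (pts e) ((n + 1) • LL) := by
  rw [mem_H0 _ _ (by simp [LL])]
  have hd : ((n + 1) • LL).1.toNat = 3 + (5 * n + 2) := by simp [LL]; omega
  have hm : ∀ i, (((n + 1) • LL).2 i).toNat = n + 1 := by intro i; simp [LL]
  rw [hd, Theta_apply]
  refine ⟨((Cbar_hom e).mul (Phi_hom _ _ (by omega) _)).add ?_, fun i => ?_⟩
  · have := ((Dbar_hom e).pow (n + 1)).C_mul w.2
    convert this using 1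
    ring
  · rw [hm]
    refine Ideal.add_mem _ ?_ (Ideal.mul_mem_left _ _ (Ideal.pow_mem_pow (Dbar_mem e i) _))
    have h1 := Psi_ker e n w.1 w.1.2 i
    rw [mu] at h1
    split_ifs at h1 with hi
    · rw [pow_succ']
      exact Ideal.mul_mem_mul (Cbar_mem e i hi) h1
    · exact Ideal.mul_mem_left _ _ h1

theorem h0_ge (e : ℕ → k) (he : Function.Injective e) (n : ℕ) :
    2 * n ^ 2 + n + 1 ≤ h0 (pts e) ((n + 1) • LL) := by
  have h1 : LinearMap.range (Theta e n) ≤ H0 (pts e) ((n + 1) • LL) := by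
    rintro _ ⟨w, rfl⟩
    exact Theta_mem e n w
  haveI := H0_fin (pts e) ((n + 1) • LL)
  have h2 := Submodule.finrank_mono h1
  rw [LinearMap.finrank_range_of_inj (Theta_inj e he n), Module.finrank_prod,
    Module.finrank_self] at h2
  have h3 := finrank_ker e n
  rw [h0]
  omega

theorem chi_LL (n : ℕ) : chi ((n + 1) • LL) = 2 * (n : ℤ) ^ 2 + n := by
  have h1 : dot ((n + 1) • LL) ((n + 1) • LL) - dot ((n + 1) • LL) K =
      (2 * (n : ℤ) ^ 2 + n - 1) * 2 := by
    simp [dot, LL, K]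
    ring
  rw [chi, h1, Int.mul_ediv_cancel _ (by norm_num)]
  ring

theorem h1_pos (e : ℕ → k) (he : Function.Injective e) (n : ℕ) :
    0 < h1 (pts e) ((n + 1) • LL) := by
  have h := h0_ge e he n
  rw [h1, chi_LL]
  have h' : (2 * (n : ℤ) ^ 2 + n + 1) ≤ h0 (pts e) ((n + 1) • LL) := by exact_mod_cast h
  have h'' : (0 : ℤ) ≤ h0 (pts e) (K - (n + 1) • LL) := Int.natCast_nonneg _
  omega

theorem main (k : Type u) [Field k] [IsAlgClosed k] :
    ∃ (p : Fin 21 → Fin 3 → k) (L : Cls 21), DistinctPoints p ∧ Effective p L ∧ Nef p L ∧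
      ¬ CondB p L ∧ ∀ m : ℕ, 1 ≤ m → 0 < h1 p (m • L) := by
  haveI : Infinite k := IsAlgClosed.instInfinite
  let e : ℕ ↪ k := Infinite.natEmbedding k
  refine ⟨pts e, LL, distinct e e.injective, ⟨Dbar e, ?_, Dbar_ne_zero e⟩,
    nefLL e e.injective, notB e e.injective, fun m hm => ?_⟩
  · rw [mem_H0_LL]
    exact ⟨Dbar_hom e, Dbar_mem e⟩
  · obtain ⟨n, rfl⟩ : ∃ n, m = n + 1 := ⟨m - 1, by omega⟩
    exact h1_pos e e.injective n

end Pool.Agent.H9.Special
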