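import Pool.Agent.H9.Special.Uniq

namespace Pool.Agent.H9.Special

open MvPolynomial

universe u

variable {k : Type u} [Field k]

/-- restriction to the vertical line `x = a` -/
noncomputable def resV (a : k) (F : MvPolynomial (Fin 3) k) : Polynomial k :=
  aeval (![Polynomial.C a, Polynomial.X, 1] : Fin 3 → Polynomial k) F

/-- restriction to the horizontal line `y = b` -/
noncomputable def resH (b : k) (F : MvPolynomial (Fin 3) k) : Polynomial k :=
  aeval (![Polynomial.X, Polynomial.C b, 1] : Fin 3 → Polynomial k) F

theorem resV_eval (a t : k) (F : MvPolynomial (Fin 3) k) :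
    (resV a F).eval t = eval ![a, t, 1] F := by
  rw [resV, aeval_eval']
  congr 2
  funext i
  fin_cases i <;> simp

theorem resH_eval (b t : k) (F : MvPolynomial (Fin 3) k) :
    (resH b F).eval t = eval ![t, b, 1] F := by
  rw [resH, aeval_eval']
  congr 2
  funext i
  fin_cases i <;> simp

theorem resV_dvd (a b : k) {F : MvPolynomial (Fin 3) k} {n : ℕ}
    (hF : F ∈ pointIdeal ![a, b, 1] ^ n) : (Polynomial.X - Polynomial.C b) ^ n ∣ resV a F :=
  dvd_of_mem _ _ b (by intro i; fin_cases i <;> simp) hF

theorem resH_dvd (a b : k) {F : MvPolynomial (Fin 3) k} {n : ℕ}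
    (hF : F ∈ pointIdeal ![a, b, 1] ^ n) : (Polynomial.X - Polynomial.C a) ^ n ∣ resH b F :=
  dvd_of_mem _ _ a (by intro i; fin_cases i <;> simp) hF

theorem resV_deg (a : k) {F : MvPolynomial (Fin 3) k} {d : ℕ} (hF : F.IsHomogeneous d) :
    (resV a F).natDegree ≤ d := by
  have := aeval_natDegree_le (n := 1) F hF.totalDegree_le
    (![Polynomial.C a, Polynomial.X, 1] : Fin 3 → Polynomial k) (by
      intro i; fin_cases i <;> simp)
  simpa [resV] using this

theorem resH_deg (a : k) {F : MvPolynomial (Fin 3) k} {d : ℕ} (hF : F.IsHomogeneous d) :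
    (resH a F).natDegree ≤ d := by
  have := aeval_natDegree_le (n := 1) F hF.totalDegree_le
    (![Polynomial.X, Polynomial.C a, 1] : Fin 3 → Polynomial k) (by
      intro i; fin_cases i <;> simp)
  simpa [resH] using this

/-- the multiplicities along a vertical line that is not a component -/
theorem sum_le_of_ne (e : ℕ → k) (he : Function.Injective e) (j : Fin 5)
    {F : MvPolynomial (Fin 3) k} {f : ℕ} (hF : F.IsHomogeneous f) (n : Fin 21 → ℕ)
    (hn : ∀ i, F ∈ pointIdeal (pts e i) ^ n i) (h0 : resV (e j) F ≠ 0) :
    ∑ i ∈ Finset.univ.filter (fun i => xx i = j), n i ≤ f := by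
  have h1 : (∏ i ∈ Finset.univ.filter (fun i => xx i = j),
      (Polynomial.X - Polynomial.C (e (yy i))) ^ n i) ∣ resV (e j) F := by
    refine Finset.prod_dvd_of_coprime ?_ ?_
    · intro i hi i' hi' hne
      refine IsCoprime.pow (Polynomial.pairwise_coprime_X_sub_C he ?_)
      intro h
      simp only [Finset.coe_filter, Set.mem_setOf_eq, Finset.mem_univ, true_and] at hi hi'
      have h2 : xx i = xx i' := hi.trans hi'.symm
      revert hne h2 h
      clear hi hi'
      revert i i'
      decide
    · intro i hi
      simp only [Finset.mem_filter, Finset.mem_univ, true_and] at hi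
      have := hn i
      rw [pts, hi] at this
      exact resV_dvd _ _ this
  have h2 := Polynomial.natDegree_le_of_dvd h1 h0
  rw [Polynomial.natDegree_prod _ _ (fun i _ => pow_ne_zero _ (Polynomial.X_sub_C_ne_zero _))] at h2
  simp only [Polynomial.natDegree_pow, Polynomial.natDegree_X_sub_C, mul_one] at h2
  exact h2.trans (resV_deg _ hF)

theorem card_line (j : Fin 5) : (Finset.univ.filter (fun i => xx i = j)).card ≤ 5 := by
  revert j
  decide

theorem nefLL [Infinite k] (e : ℕ → k) (he : Function.Injective e) : Nef (pts e) LL := by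
  refine ⟨fun i => by simp [LL], fun f F n hirr hF hn => ?_⟩
  have key : ∑ i, n i ≤ 5 * f := by
    by_cases h : ∀ j : Fin 5, resV (e j) F ≠ 0
    · rw [← Finset.sum_fiberwise (s := Finset.univ) (g := xx)]
      calc ∑ j, ∑ i ∈ Finset.univ.filter (fun i => xx i = j), n i ≤ ∑ j : Fin 5, f :=
            Finset.sum_le_sum fun j _ => sum_le_of_ne e he j hF n hn (h j)
        _ = 5 * f := by simp
    · push Not at h
      obtain ⟨j, hj⟩ := h
      have hdvd : lv (e j) ∣ F := line_dvd hF _ (fun t => by
        rw [← resV_eval, hj, Polynomial.eval_zero])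
      obtain ⟨G, hG⟩ := hdvd
      have hlu : ¬ IsUnit (lv (e j)) := by
        intro hu
        have := hu.map (eval ![e j, 0, 1])
        simp [lv] at this
      have hGu : IsUnit G := (hirr.isUnit_or_isUnit hG).resolve_left hlu
      obtain ⟨c, hc, rfl⟩ := MvPolynomial.isUnit_iff_eq_C_of_isReduced.1 hGu
      have hc0 : c ≠ 0 := hc.ne_zero
      have hF1 : F.IsHomogeneous 1 := by
        rw [hG, mul_comm]
        exact (lv_hom _).C_mul c
      have hf1 : f = 1 := hF.inj_right hF1 hirr.ne_zero
      have hres : ∀ b : k, resH b F = (Polynomial.X - Polynomial.C (e j)) * Polynomial.C c := by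
        intro b
        rw [hG, resH, map_mul]
        simp [lv]
      have hni : ∀ i, n i ≤ if xx i = j then 1 else 0 := by
        intro i
        have h1 := resH_dvd (e (xx i)) (e (yy i)) (hn i)
        rw [hres] at h1
        by_cases hx : xx i = j
        · rw [if_pos hx]
          have h2 := Polynomial.natDegree_le_of_dvd h1
            (mul_ne_zero (Polynomial.X_sub_C_ne_zero _) (Polynomial.C_ne_zero.2 hc0))
          rw [Polynomial.natDegree_pow, Polynomial.natDegree_X_sub_C, mul_one,
            Polynomial.natDegree_mul_C hc0, Polynomial.natDegree_X_sub_C] at h2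
          exact h2
        · rw [if_neg hx]
          by_contra hni
          have h2 : (Polynomial.X - Polynomial.C (e (xx i))) ∣
              (Polynomial.X - Polynomial.C (e j)) * Polynomial.C c :=
            (dvd_pow_self _ (by omega)).trans h1
          rw [Polynomial.dvd_iff_isRoot, Polynomial.IsRoot.def] at h2
          simp only [Polynomial.eval_mul, Polynomial.eval_sub, Polynomial.eval_X,
            Polynomial.eval_C, mul_eq_zero, hc0, or_false, sub_eq_zero] at h2
          exact hx (Fin.ext (he h2))
      subst hf1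
      calc ∑ i, n i ≤ ∑ i, (if xx i = j then 1 else 0) := Finset.sum_le_sum fun i _ => hni i
        _ = (Finset.univ.filter (fun i => xx i = j)).card := by
            rw [Finset.card_filter]
        _ ≤ 5 * 1 := card_line j
  have h2 : dot LL ((f : ℤ), fun i => (n i : ℤ)) = 5 * f - ∑ i, (n i : ℤ) := by
    simp [dot, LL]
  rw [h2, sub_nonneg]
  exact_mod_cast key

end Pool.Agent.H9.Special
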