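import Pool.Agent.H9.Special.Basic

namespace Pool.Agent.H9.Special

open MvPolynomial

universe u

def xx : Fin 21 → Fin 5 := ![0,0,0,0,0,1,1,1,1,2,2,2,2,3,3,3,3,4,4,4,4]
def yy : Fin 21 → Fin 6 := ![0,1,2,3,4,0,1,2,3,0,1,2,3,0,1,2,4,0,1,2,5]

variable {k : Type u} [Field k]

/-- the points -/
def pts (e : ℕ → k) (i : Fin 21) : Fin 3 → k := ![e (xx i), e (yy i), 1]

def LL : Cls 21 := (5, fun _ => 1)

noncomputable def lv (a : k) : MvPolynomial (Fin 3) k := X 0 - C a * X 2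
noncomputable def lh (b : k) : MvPolynomial (Fin 3) k := X 1 - C b * X 2

noncomputable def Dbar (e : ℕ → k) : MvPolynomial (Fin 3) k := ∏ j : Fin 5, lv (e j)
noncomputable def Cbar (e : ℕ → k) : MvPolynomial (Fin 3) k := ∏ j : Fin 3, lh (e j)

theorem lv_hom (a : k) : (lv a).IsHomogeneous 1 :=
  (isHomogeneous_X k 0).sub (isHomogeneous_C_mul_X a 2)

theorem lh_hom (a : k) : (lh a).IsHomogeneous 1 :=
  (isHomogeneous_X k 1).sub (isHomogeneous_C_mul_X a 2)

theorem Dbar_hom (e : ℕ → k) : (Dbar e).IsHomogeneous 5 := by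
  have := MvPolynomial.IsHomogeneous.prod Finset.univ (fun j : Fin 5 => lv (e j)) (fun _ => 1)
    (fun j _ => lv_hom _)
  simpa [Dbar] using this

theorem Cbar_hom (e : ℕ → k) : (Cbar e).IsHomogeneous 3 := by
  have := MvPolynomial.IsHomogeneous.prod Finset.univ (fun j : Fin 3 => lh (e j)) (fun _ => 1)
    (fun j _ => lh_hom _)
  simpa [Cbar] using this

theorem lv_mem (a b : k) : lv a ∈ pointIdeal ![a, b, 1] :=
  Ideal.subset_span ⟨lv_hom a, by simp [lv]⟩

theorem lh_mem (a b : k) : lh b ∈ pointIdeal ![a, b, 1] :=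
  Ideal.subset_span ⟨lh_hom b, by simp [lh]⟩

theorem Dbar_mem (e : ℕ → k) (i : Fin 21) : Dbar e ∈ pointIdeal (pts e i) := by
  have h : lv (e (xx i)) ∣ Dbar e := Finset.dvd_prod_of_mem _ (Finset.mem_univ (xx i))
  exact Ideal.mem_of_dvd _ h (lv_mem _ _)

theorem lh_dvd (e : ℕ → k) (n : ℕ) (hn : n < 3) : lh (e n) ∣ Cbar e := by
  have h := Finset.dvd_prod_of_mem (fun j : Fin 3 => lh (e (j : ℕ)))
    (Finset.mem_univ (⟨n, hn⟩ : Fin 3))
  rw [Cbar]
  exact h

theorem Cbar_mem (e : ℕ → k) (i : Fin 21) (hi : (yy i : ℕ) < 3) :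
    Cbar e ∈ pointIdeal (pts e i) :=
  Ideal.mem_of_dvd _ (lh_dvd e _ hi) (lh_mem _ _)

theorem mem_H0 {r : ℕ} (p : Fin r → Fin 3 → k) (D : Cls r) (hD : 0 ≤ D.1)
    (F : MvPolynomial (Fin 3) k) :
    F ∈ H0 p D ↔ F.IsHomogeneous D.1.toNat ∧ ∀ i, F ∈ pointIdeal (p i) ^ (D.2 i).toNat := by
  rw [H0, if_pos hD, Submodule.mem_inf, mem_homogeneousSubmodule, Submodule.mem_iInf]
  rfl

theorem mem_H0_LL (e : ℕ → k) (F : MvPolynomial (Fin 3) k) :
    F ∈ H0 (pts e) LL ↔ F.IsHomogeneous 5 ∧ ∀ i, F ∈ pointIdeal (pts e i) := by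
  rw [mem_H0 _ _ (by simp [LL])]
  simp [LL]

theorem Dbar_ne_zero (e : ℕ → k) : Dbar e ≠ 0 := by
  refine Finset.prod_ne_zero_iff.2 fun j _ h => ?_
  have := congrArg (eval ![e j + 1, 0, 1]) h
  simp [lv] at this

theorem distinct (e : ℕ → k) (he : Function.Injective e) : DistinctPoints (pts e) := by
  refine ⟨fun i h => ?_, fun i j hij c h => ?_⟩
  · have := congrFun h 2
    simp [pts] at this
  · have h2 := congrFun h 2
    have h0 := congrFun h 0
    have h1 := congrFun h 1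
    simp [pts] at h0 h1 h2
    subst h2
    rw [one_mul] at h0 h1
    have h0' : (xx i : ℕ) = xx j := he h0
    have h1' : (yy i : ℕ) = yy j := he h1
    revert hij h0' h1'
    clear h0 h1 h
    revert i j
    decide

end Pool.Agent.H9.Special
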