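import Pool.Agent.H9.Special.Points

namespace Pool.Agent.H9.Special

open MvPolynomial

universe u

variable {k : Type u} [Field k]

/-- dehomogenisation -/
noncomputable def deh (F : MvPolynomial (Fin 3) k) : MvPolynomial (Fin 2) k :=
  aeval (![X 0, X 1, 1] : Fin 3 → MvPolynomial (Fin 2) k) F

theorem eval_deh (F : MvPolynomial (Fin 3) k) (a b : k) :
    eval ![a, b] (deh F) = eval ![a, b, 1] F := by
  rw [deh, aeval_eval]
  congr 2
  funext i
  fin_cases i <;> simp

theorem deh_totalDegree {F : MvPolynomial (Fin 3) k} {d : ℕ} (hF : F.IsHomogeneous d) :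
    (deh F).totalDegree ≤ d := by
  rw [deh, F.as_sum, map_sum]
  refine totalDegree_finsetSum_le fun s hs => ?_
  have h1 : s.degree = d := by
    by_contra hne
    exact (MvPolynomial.mem_support_iff.1 hs) (hF.coeff_eq_zero hne)
  rw [Finsupp.degree_eq_sum, Fin.sum_univ_three] at h1
  rw [aeval_monomial, Finsupp.prod_fintype _ _ (by simp), Fin.prod_univ_three]
  simp only [Matrix.cons_val_zero, Matrix.cons_val_one, Matrix.cons_val, one_pow, mul_one]
  refine (totalDegree_mul _ _).trans ?_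
  have h2 : (algebraMap k (MvPolynomial (Fin 2) k) (coeff s F)).totalDegree = 0 := totalDegree_C _
  have h3 := totalDegree_mul (X 0 ^ s 0 : MvPolynomial (Fin 2) k) (X 1 ^ s 1)
  rw [totalDegree_X_pow, totalDegree_X_pow] at h3
  omega

theorem stepS [Infinite k] (e : ℕ → k) (he : Function.Injective e)
    {g : MvPolynomial (Fin 2) k} (hg0 : g ≠ 0) {d : ℕ} (hg : g.totalDegree ≤ d) (b : ℕ)
    (S : Finset ℕ) (hS : d < S.card) (h : ∀ a ∈ S, eval ![e a, e b] g = 0) :
    ∃ g' : MvPolynomial (Fin 2) k, g' ≠ 0 ∧ g'.totalDegree + 1 ≤ d ∧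
      ∀ a c, c ≠ b → eval ![e a, e c] g = 0 → eval ![e a, e c] g' = 0 := by
  classical
  obtain ⟨g', h1, h2, h3⟩ := step hg0 hg (e b) (S.image e)
    (by rwa [Finset.card_image_of_injective _ he]) (by
      intro t ht
      obtain ⟨a, ha, rfl⟩ := Finset.mem_image.1 ht
      exact h a ha)
  refine ⟨g', h2, h3, fun a c hc hz => ?_⟩
  rw [h1, map_mul] at hz
  rcases mul_eq_zero.1 hz with hz | hz
  · exfalso
    simp only [map_sub, eval_X, eval_C, Matrix.cons_val_one, Matrix.cons_val_fin_one,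
      sub_eq_zero] at hz
    exact hc (he hz)
  · exact hz

theorem uniq2 [Infinite k] (e : ℕ → k) (he : Function.Injective e) (g : MvPolynomial (Fin 2) k)
    (hg : g.totalDegree ≤ 5) (h : ∀ i : Fin 21, eval ![e (xx i), e (yy i)] g = 0)
    (h' : eval ![e 5, e 0] g = 0) : g = 0 := by
  by_contra hg0
  have P : ∀ a c : ℕ, (∃ i, (xx i : ℕ) = a ∧ (yy i : ℕ) = c) → eval ![e a, e c] g = 0 := by
    rintro a c ⟨i, rfl, rfl⟩
    exact h i
  obtain ⟨g1, n1, d1, z1⟩ := stepS e he hg0 hg 0 {0, 1, 2, 3, 4, 5} (by decide) (by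
    intro a ha
    fin_cases ha
    · exact P _ _ (by decide)
    · exact P _ _ (by decide)
    · exact P _ _ (by decide)
    · exact P _ _ (by decide)
    · exact P _ _ (by decide)
    · exact h')
  obtain ⟨g2, n2, d2, z2⟩ := stepS e he n1 (d := 4) (by omega) 1 {0, 1, 2, 3, 4} (by decide) (by
    intro a ha
    refine z1 _ _ (by decide) (P _ _ ?_)
    fin_cases ha <;> decide)
  obtain ⟨g3, n3, d3, z3⟩ := stepS e he n2 (d := 3) (by omega) 2 {0, 1, 2, 3, 4} (by decide) (by
    intro a ha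
    refine z2 _ _ (by decide) (z1 _ _ (by decide) (P _ _ ?_))
    fin_cases ha <;> decide)
  obtain ⟨g4, n4, d4, z4⟩ := stepS e he n3 (d := 2) (by omega) 3 {0, 1, 2} (by decide) (by
    intro a ha
    refine z3 _ _ (by decide) (z2 _ _ (by decide) (z1 _ _ (by decide) (P _ _ ?_)))
    fin_cases ha <;> decide)
  obtain ⟨g5, n5, d5, z5⟩ := stepS e he n4 (d := 1) (by omega) 4 {0, 3} (by decide) (by
    intro a ha
    refine z4 _ _ (by decide) (z3 _ _ (by decide) (z2 _ _ (by decide)
      (z1 _ _ (by decide) (P _ _ ?_))))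
    fin_cases ha <;> decide)
  obtain ⟨g6, n6, d6, z6⟩ := stepS e he n5 (d := 0) (by omega) 5 {4} (by decide) (by
    intro a ha
    refine z5 _ _ (by decide) (z4 _ _ (by decide) (z3 _ _ (by decide) (z2 _ _ (by decide)
      (z1 _ _ (by decide) (P _ _ ?_)))))
    fin_cases ha
    decide)
  omega

theorem uniq [Infinite k] (e : ℕ → k) (he : Function.Injective e) {G : MvPolynomial (Fin 3) k}
    (hG : G ∈ H0 (pts e) LL) : ∃ c : k, G = C c * Dbar e := by
  rw [mem_H0_LL] at hG
  have hD : eval ![e 5, e 0, 1] (Dbar e) ≠ 0 := by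
    rw [Dbar, map_prod]
    refine Finset.prod_ne_zero_iff.2 fun j _ h => ?_
    simp only [lv, map_sub, map_mul, eval_X, eval_C, Matrix.cons_val_zero, Matrix.cons_val,
      mul_one, sub_eq_zero] at h
    have := he h
    omega
  set c : k := eval ![e 5, e 0, 1] G / eval ![e 5, e 0, 1] (Dbar e) with hc
  refine ⟨c, ?_⟩
  rw [← sub_eq_zero]
  set H : MvPolynomial (Fin 3) k := G - C c * Dbar e with hH
  have hHh : H.IsHomogeneous 5 := hG.1.sub ((Dbar_hom e).C_mul c)
  have hz : deh H = 0 := by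
    refine uniq2 e he _ (deh_totalDegree hHh) ?_ ?_
    · intro i
      rw [eval_deh]
      have h1 : eval (pts e i) H = 0 := by
        rw [hH, map_sub, map_mul, eval_of_mem _ (hG.2 i), eval_of_mem _ (Dbar_mem e i)]
        simp
      exact h1
    · rw [eval_deh, hH, map_sub, map_mul, eval_C, hc, div_mul_cancel₀ _ hD, sub_self]
  refine eq_zero_of_affine hHh fun x y => ?_
  rw [← eval_deh, hz, map_zero]

end Pool.Agent.H9.Special
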